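import Mathlib
import Pool.Agent.H17.QInv

set_option autoImplicit false

namespace Pool.Agent.Results.MP_aa79fc_nt.Inversion

inductive Letter where
  | x : Letter
  | y : Letter
  | z : Letter
  deriving DecidableEq

def a {k : ℕ} (u : Fin k → Letter) (j : Fin k) : ℕ :=
  (Finset.univ.filter fun h => h ≤ j ∧ u h = Letter.y).card

def b {k : ℕ} (u : Fin k → Letter) (j : Fin k) : ℕ :=
  (Finset.univ.filter fun h => j ≤ h ∧ u h = Letter.x).card

noncomputable def factor (q : RatFunc ℚ) (s t : ℤ) : Letter → RatFunc ℚ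
  | .x => 1 / (1 - q ^ s)
  | .y => -1 / (1 - q ^ t)
  | .z => 1 / (1 - q ^ s) - 1 / (1 - q ^ t)

open Classical in
noncomputable def Z (N : ℕ) (q : RatFunc ℚ) {k : ℕ} (u : Fin k → Letter) : RatFunc ℚ :=
  ∑ n ∈ Finset.univ.filter (fun n : Fin k → Fin (N + 1) => Monotone n),
    ∏ j, factor q (((n j).val : ℤ) + a u j) (((n j).val : ℤ) - N - b u j) (u j)

open Pool.Agent.H17.QInv in
theorem result (N k : ℕ) (u : Fin k → Letter)
    (hfirst : ∀ j : Fin k, j.val = 0 → u j = Letter.y)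
    (hlast : ∀ j : Fin k, j.val + 1 = k → u j = Letter.x) :
    Z N (RatFunc.X)⁻¹ u = (-1) ^ k * Z N RatFunc.X u ∧
      ∀ σ : RatFunc ℚ →+* RatFunc ℚ, σ RatFunc.X = (RatFunc.X)⁻¹ →
        σ (Z N RatFunc.X u) = (-1) ^ k * Z N RatFunc.X u := by
  classical
  let c : Letter → Fin 3 := fun l => match l with
    | .x => 0
    | .y => 1
    | .z => 2
  have cy : ∀ l, c l = 1 ↔ l = Letter.y := fun l => by cases l <;> simp [c]
  have cx' : ∀ l, c l = 0 ↔ l = Letter.x := fun l => by cases l <;> simp [c]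
  have ha : ∀ j, ca (fun h => c (u h)) j = a u j := fun j => by simp [ca, a, cy]
  have hb : ∀ j, cb (fun h => c (u h)) j = b u j := fun j => by simp [cb, b, cx']
  have ha1 : ∀ j, 1 ≤ a u j := fun j => Finset.card_pos.2
    ⟨⟨0, by have := j.isLt; omega⟩, Finset.mem_filter.2
      ⟨Finset.mem_univ _, Nat.zero_le _, hfirst _ rfl⟩⟩
  have hb1 : ∀ j, 1 ≤ b u j := fun j => Finset.card_pos.2
    ⟨⟨k - 1, by have := j.isLt; omega⟩, by
      have := j.isLt
      simp only [Finset.mem_filter, Finset.mem_univ, true_and, Fin.le_def]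
      exact ⟨by omega, hlast _ (by simp only; omega)⟩⟩
  have hX : (RatFunc.X : RatFunc ℚ) ≠ 0 := RatFunc.X_ne_zero
  have hX1 : ∀ m, 1 ≤ m → 1 - (RatFunc.X : RatFunc ℚ) ^ m ≠ 0 := by
    intro m hm h
    have h1 : (RatFunc.X : RatFunc ℚ) ^ m = 1 := (sub_eq_zero.1 h).symm
    have h2 : (Polynomial.X : Polynomial ℚ) ^ m = 1 := by
      apply RatFunc.algebraMap_injective ℚ
      simpa using h1
    have := congrArg Polynomial.natDegree h2
    simp at this
    omega
  have key := main0 hX1 k (fun h => c (u h)) N (fun j hj => (cx' _).2 (hlast j hj))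
    (fun j hj => (cy _).2 (hfirst j hj))
  have hA := sum_eq (wA (RatFunc.X : RatFunc ℚ)) N k (fun h => c (u h)) 0 0 (Nat.zero_le _)
  have hB := sum_eq (wB (RatFunc.X : RatFunc ℚ)) N k (fun h => c (u h)) 0 0 (Nat.zero_le _)
  simp only [Nat.zero_le, implies_true, and_true, add_zero, Nat.sub_zero, ha, hb] at hA hB
  have fB : ∀ (l : Letter) (p ρ : ℕ), 1 ≤ p → 1 ≤ ρ →
      factor RatFunc.X p (-(ρ : ℤ)) l = wB RatFunc.X (c l) p ρ := by
    intro l p ρ hp hρ
    have h1 := hX1 p hp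
    have h2 := hX1 ρ hρ
    have h3 : (RatFunc.X : RatFunc ℚ) ^ ρ - 1 ≠ 0 := fun h => h2 (by linear_combination -h)
    have h4 := pow_ne_zero ρ hX
    cases l <;> simp [factor, wB, c] <;> field_simp <;> ring
  have fA : ∀ (l : Letter) (p ρ : ℕ), 1 ≤ p → 1 ≤ ρ →
      factor (RatFunc.X)⁻¹ p (-(ρ : ℤ)) l = -1 * wA RatFunc.X (c l) p ρ := by
    intro l p ρ hp hρ
    have h1 := hX1 p hp
    have h2 := hX1 ρ hρ
    have h3 : (RatFunc.X : RatFunc ℚ) ^ p - 1 ≠ 0 := fun h => h1 (by linear_combination -h)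
    have h4 := pow_ne_zero p hX
    cases l <;> simp [factor, wA, c] <;> field_simp <;> ring
  have e1 : ∀ (n : Fin k → Fin (N + 1)) (j : Fin k),
      ((n j).val : ℤ) + a u j = (((n j).val + a u j : ℕ) : ℤ) := fun n j => by push_cast; ring
  have e2 : ∀ (n : Fin k → Fin (N + 1)) (j : Fin k),
      ((n j).val : ℤ) - N - b u j = -((N - (n j).val + b u j : ℕ) : ℤ) := fun n j => by
    have := (n j).isLt
    omega
  have main1 : Z N (RatFunc.X)⁻¹ u = (-1) ^ k * Z N RatFunc.X u := by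
    have z1 : Z N RatFunc.X u = Phi (wB RatFunc.X) k (fun h => c (u h)) 0 N := by
      rw [← hB, Z]
      refine Finset.sum_congr (by congr) fun n _ => Finset.prod_congr rfl fun j _ => ?_
      rw [e1, e2, fB _ _ _ (by have := ha1 j; omega) (by have := hb1 j; omega)]
    have z2 : Z N (RatFunc.X)⁻¹ u = (-1) ^ k * Phi (wA RatFunc.X) k (fun h => c (u h)) 0 N := by
      rw [← hA, Z, Finset.mul_sum]
      refine Finset.sum_congr (by congr) fun n _ => ?_
      rw [Finset.prod_congr rfl fun j _ => by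
        rw [e1, e2, fA _ _ _ (by have := ha1 j; omega) (by have := hb1 j; omega)],
        Finset.prod_mul_distrib]
      simp
    rw [z1, z2, key]
  refine ⟨main1, fun σ hσ => ?_⟩
  rw [← main1, Z, Z, map_sum]
  refine Finset.sum_congr rfl fun n _ => ?_
  rw [map_prod]
  refine Finset.prod_congr rfl fun j _ => ?_
  generalize u j = l
  cases l <;> simp only [factor, map_div₀, map_sub, map_one, map_neg, map_zpow₀, hσ]

end Pool.Agent.Results.MP_aa79fc_nt.Inversion
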